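import Pool.Agent.H77.K4.Z4

/-!
# A K3 surface with fibres of rank 0 in positive proportion

The surface is `y^2 = x (x - (m+n) m^2 n) (x - (m+n)^2 m n)` over the line with coordinates
`[m : n]`, that is, `l (l - 1) y^2 = x (x - 1) (x - l)` with `l = (m+n)/m`. It is a non-isotrivial
elliptic K3 surface with three singular fibres, all of type `I_2^*`, over `[0 : 1]`, `[1 : 0]` and
`[1 : -1]`, and of Mordell-Weil rank 0.

We prove that a positive proportion of the fibres have a finite group of rational points. Here the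
fibres are ordered by the height `max (|m|, |n|)` with `m`, `n` coprime (each point of the line is
counted twice, as `(m, n)` and as `(-m, -n)`).
-/

set_option autoImplicit false

namespace Pool.Agent.Results.MP_6cf96a_nt.PositiveProportion

open Finset

private theorem finite_point {m n : ℤ} (hc : IsCoprime m n) (h0 : m * n * (m + n) ≠ 0)
    (hr : Module.finrank ℤ (Pool.Agent.H77.K4.F3.E m n).Point = 0) :
    Finite (Pool.Agent.H77.K4.F3.E m n).Point := by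
  obtain ⟨w, hw⟩ := Pool.Agent.H77.K4.F3.exists_big
  have hP : Pool.Agent.H77.K4.F3.P m n ≠ 0 := by
    simpa [Pool.Agent.H77.SV.Fam.P, Pool.Agent.H77.SV.Fam.l, Pool.Agent.H77.K4.F3,
      Fin.prod_univ_three, and_assoc, and_comm, and_left_comm] using h0
  have hfin := (Pool.Agent.H77.SV.rank_ineq (F := Pool.Agent.H77.K4.F3) hw hc hP w le_rfl).1
  have ht := Module.finrank_eq_zero_iff_isTorsion.1 hr
  exact Module.finite_of_fg_torsion _ ht

private theorem E_eq (m n : ℤ) : Pool.Agent.H77.K4.F3.E m n =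
    ⟨0, -((m + n) * m ^ 2 * n + (m + n) ^ 2 * m * n), 0,
      ((m + n) * m ^ 2 * n) * ((m + n) ^ 2 * m * n), 0⟩ := by
  simp [Pool.Agent.H77.SV.Fam.E, Pool.Agent.H77.SV.Fam.A, Pool.Agent.H77.SV.Fam.B,
    Pool.Agent.H77.SV.Fam.l, Pool.Agent.H77.K4.F3, Fin.prod_univ_three]

open Classical in
theorem result
    (E : ℤ → ℤ → WeierstrassCurve.Affine ℚ)
    (hE : ∀ m n : ℤ, E m n =
      ⟨0, -((m + n) * m ^ 2 * n + (m + n) ^ 2 * m * n), 0,
        ((m + n) * m ^ 2 * n) * ((m + n) ^ 2 * m * n), 0⟩) :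
    ∃ δ : ℝ, 0 < δ ∧ ∃ T0 : ℕ, ∀ T : ℕ, T0 ≤ T →
      δ * ((((Icc (-(T : ℤ)) T) ×ˢ (Icc (-(T : ℤ)) T)).filter
        fun x => IsCoprime x.1 x.2).card : ℝ) ≤
      ((((Icc (-(T : ℤ)) T) ×ˢ (Icc (-(T : ℤ)) T)).filter
        fun x => IsCoprime x.1 x.2 ∧ x.1 * x.2 * (x.1 + x.2) ≠ 0 ∧
          Finite (E x.1 x.2).Point).card : ℝ) := by
  obtain ⟨c, hc, T0, h⟩ := Pool.Agent.H77.K4.main0
  refine ⟨c / 9, by positivity, max T0 1, fun T hT => ?_⟩
  have h1 := h T ((le_max_left _ _).trans hT)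
  have hT1 : (1 : ℝ) ≤ T := by exact_mod_cast (le_max_right _ _).trans hT
  have h2 : ((((Icc (-(T : ℤ)) T) ×ˢ (Icc (-(T : ℤ)) T)).filter
      fun x => IsCoprime x.1 x.2).card : ℝ) ≤ 9 * (T : ℝ) ^ 2 := by
    have h3 : (((Icc (-(T : ℤ)) T) ×ˢ (Icc (-(T : ℤ)) T)).filter
        fun x => IsCoprime x.1 x.2).card ≤ (2 * T + 1) * (2 * T + 1) := by
      refine (Finset.card_filter_le _ _).trans ?_
      rw [Finset.card_product, Int.card_Icc]
      have : ((T : ℤ) + 1 - -(T : ℤ)).toNat = 2 * T + 1 := by omega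
      rw [this]
    have h4 : ((((Icc (-(T : ℤ)) T) ×ˢ (Icc (-(T : ℤ)) T)).filter
        fun x => IsCoprime x.1 x.2).card : ℝ) ≤ (2 * T + 1) * (2 * T + 1) := by
      exact_mod_cast h3
    nlinarith
  have h5 : ((((Icc (-(T : ℤ)) T) ×ˢ (Icc (-(T : ℤ)) T)).filter fun x =>
      IsCoprime x.1 x.2 ∧ x.1 * x.2 * (x.1 + x.2) ≠ 0 ∧
        Module.finrank ℤ (Pool.Agent.H77.K4.F3.E x.1 x.2).Point = 0).card : ℝ) ≤
      ((((Icc (-(T : ℤ)) T) ×ˢ (Icc (-(T : ℤ)) T)).filter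
        fun x => IsCoprime x.1 x.2 ∧ x.1 * x.2 * (x.1 + x.2) ≠ 0 ∧
          Finite (E x.1 x.2).Point).card : ℝ) := by
    have : (((Icc (-(T : ℤ)) T) ×ˢ (Icc (-(T : ℤ)) T)).filter fun x =>
        IsCoprime x.1 x.2 ∧ x.1 * x.2 * (x.1 + x.2) ≠ 0 ∧
          Module.finrank ℤ (Pool.Agent.H77.K4.F3.E x.1 x.2).Point = 0) ⊆
        (((Icc (-(T : ℤ)) T) ×ˢ (Icc (-(T : ℤ)) T)).filter
          fun x => IsCoprime x.1 x.2 ∧ x.1 * x.2 * (x.1 + x.2) ≠ 0 ∧
            Finite (E x.1 x.2).Point) := by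
      intro x hx
      rw [Finset.mem_filter] at hx ⊢
      refine ⟨hx.1, hx.2.1, hx.2.2.1, ?_⟩
      rw [hE, ← E_eq]
      exact finite_point hx.2.1 hx.2.2.1 hx.2.2.2
    exact_mod_cast Finset.card_le_card this
  calc _ ≤ c / 9 * (9 * (T : ℝ) ^ 2) := by gcongr
    _ = c * (T : ℝ) ^ 2 := by ring
    _ ≤ _ := h1.trans h5

end Pool.Agent.Results.MP_6cf96a_nt.PositiveProportion
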