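import Pool.Agent.H77.SV.Moment

/-!
# Exponential moments of the ranks of the fibres of elliptic surfaces with full 2-torsion

An elliptic surface over `ℚ` with full rational 2-torsion has a Weierstrass equation
`y^2 = x (x - A(m, n)) (x - B(m, n))`, with `A`, `B` forms of the same even degree `d` in the
homogeneous coordinates `m`, `n` of `ℙ^1`; the fibre over `[m : n]` is the elliptic curve with this
equation. We assume that `A`, `B` and `A - B` are products of linear forms `r_i m + s_i n` over `ℤ`,
pairwise non-proportional, with exponents `a_i`, `b_i`, `c_i`, and that for every `i` the fibre over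
the zero of the `i`-th form is
* of type `I_{2e}^*`: all three exponents are at least `1` and at least two of them are `1`, or
* of type `I_{2e}` with `e` odd: one of the three exponents is odd and the other two are `0`;
and that the three kinds of fibres of the second type (according to which of `A`, `B`, `A - B`
vanishes, that is, to which of the three sections of order two meets the identity component) are
equally numerous (there may be none of them).

Then for every `c < 2` the average of `c ^ (rank of the fibre)` over the fibres of height at most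
`T` is bounded. In particular the average rank of the fibres is bounded.
-/

set_option autoImplicit false

namespace Pool.Agent.Results.MP_6cf96a_nt.RankMoments

open Finset

theorem result
    (k : ℕ) (hk : 2 ≤ k)
    -- the linear forms `r i * m + s i * n`, pairwise non-proportional
    (r s : Fin k → ℤ) (hrs : ∀ i j, i ≠ j → r i * s j - r j * s i ≠ 0)
    (al be ga : ℤ) (hal : al ≠ 0) (hbe : be ≠ 0) (hga : ga ≠ 0)
    -- the exponents in `A`, `B`, `A - B`, and the common even degree
    (a b c : Fin k → ℕ) (d : ℕ) (hd : Even d)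
    (ha : ∑ i, a i = d) (hb : ∑ i, b i = d) (hc : ∑ i, c i = d)
    (hid : ∀ m n : ℤ, al * ∏ i, (r i * m + s i * n) ^ a i - be * ∏ i, (r i * m + s i * n) ^ b i
      = ga * ∏ i, (r i * m + s i * n) ^ c i)
    -- the types of the singular fibres
    (htype : ∀ i,
      (1 ≤ a i ∧ 1 ≤ b i ∧ 1 ≤ c i ∧
        ((a i = 1 ∧ b i = 1) ∨ (a i = 1 ∧ c i = 1) ∨ (b i = 1 ∧ c i = 1))) ∨
      ((Odd (a i) ∧ b i = 0 ∧ c i = 0) ∨ (a i = 0 ∧ Odd (b i) ∧ c i = 0) ∨
        (a i = 0 ∧ b i = 0 ∧ Odd (c i))))
    (hbal1 : #{i | b i = 0 ∧ c i = 0} = #{i | a i = 0 ∧ c i = 0})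
    (hbal2 : #{i | b i = 0 ∧ c i = 0} = #{i | a i = 0 ∧ b i = 0})
    -- the fibre over `[m : n]`
    (E : ℤ → ℤ → WeierstrassCurve.Affine ℚ)
    (hE : ∀ m n : ℤ, E m n =
      ⟨0, -(((al * ∏ i, (r i * m + s i * n) ^ a i : ℤ) : ℚ) +
          ((be * ∏ i, (r i * m + s i * n) ^ b i : ℤ) : ℚ)), 0,
        ((al * ∏ i, (r i * m + s i * n) ^ a i : ℤ) : ℚ) *
          ((be * ∏ i, (r i * m + s i * n) ^ b i : ℤ) : ℚ), 0⟩) :
    -- the fibres have finitely generated groups of rational points, and
    (∀ m n : ℤ, IsCoprime m n → ∏ i, (r i * m + s i * n) ≠ 0 →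
      AddGroup.FG (E m n).Point) ∧
    -- exponential moments of their ranks are bounded on average
    ∀ q : ℝ, 0 ≤ q → q < 2 → ∃ C : ℝ, ∀ T : ℕ, 1 ≤ T →
      ∑ x ∈ ((Icc (-(T : ℤ)) T) ×ˢ (Icc (-(T : ℤ)) T)).filter
          (fun x => IsCoprime x.1 x.2 ∧ ∏ i, (r i * x.1 + s i * x.2) ≠ 0),
        q ^ (Module.finrank ℤ (E x.1 x.2).Point) ≤ C * (T : ℝ) ^ 2 := by
  let F : Pool.Agent.H77.SV.Fam k :=
    { r := r, s := s, al := al, be := be, ga := ga, ea := a, eb := b, ec := c, d := d,
      hk := hk, hrs := hrs, hal := hal, hbe := hbe, hga := hga, htype := htype, hd := hd,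
      hea := ha, heb := hb, hec := hc, hbal1 := hbal1, hbal2 := hbal2, hid := hid }
  have hEF : ∀ m n, E m n = F.E m n := fun m n => hE m n
  obtain ⟨w, hw⟩ := F.exists_big
  refine ⟨fun m n hmn hP => ?_, fun q hq hq2 => ?_⟩
  · rw [hEF]
    have h := (Pool.Agent.H77.SV.rank_ineq (F := F) hw hmn hP w le_rfl).1
    exact Module.Finite.iff_addGroup_fg.1 h
  · obtain ⟨C, hC⟩ := Pool.Agent.H77.SV.exp_moment F hq hq2
    refine ⟨C, fun T hT => le_trans (le_of_eq ?_) (hC T hT)⟩
    refine Finset.sum_congr rfl fun x _ => ?_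
    rw [hEF]

end Pool.Agent.Results.MP_6cf96a_nt.RankMoments
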